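import Mathlib

/-!
Functional-analytic core: a total subspace of the dual of a Banach space which contains every
functional dominated by the seminorm it induces is the whole dual.
-/

open Filter Topology Metric

namespace Pool.Agent.Lib.MP_11f428_an

variable {𝕜 : Type*} [RCLike 𝕜]

/-- Separation lemma: if `‖ℓ a‖ ≤ R * ‖ℓ ∘ T‖` for every functional `ℓ`, then `a` is in the
closure of the image of the closed ball of radius `R`. -/
theorem mem_closure_image_closedBall {V F : Type*} [NormedAddCommGroup V] [NormedSpace 𝕜 V]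
    [NormedAddCommGroup F] [NormedSpace 𝕜 F] (T : V →L[𝕜] F) (a : F) (R : ℝ) (hR : 0 ≤ R)
    (h : ∀ ℓ : StrongDual 𝕜 F, ‖ℓ a‖ ≤ R * ‖ℓ.comp T‖) :
    a ∈ closure (T '' closedBall (0 : V) R) := by
  let : NormedSpace ℝ V := NormedSpace.restrictScalars ℝ 𝕜 V
  let : NormedSpace ℝ F := NormedSpace.restrictScalars ℝ 𝕜 F
  have : IsScalarTower ℝ 𝕜 V := RestrictScalars.isScalarTower ℝ 𝕜 V
  have : IsScalarTower ℝ 𝕜 F := RestrictScalars.isScalarTower ℝ 𝕜 F
  by_contra hna
  have hconv : Convex ℝ (closure (T '' closedBall (0 : V) R)) := by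
    apply Convex.closure
    exact (convex_closedBall (0 : V) R).linear_image ((T : V →ₗ[𝕜] F).restrictScalars ℝ)
  obtain ⟨ℓ, c, h1, h2⟩ :=
    RCLike.geometric_hahn_banach_closed_point (𝕜 := 𝕜) hconv isClosed_closure hna
  have hc : 0 < c := by
    have := h1 0 (subset_closure ⟨0, mem_closedBall_self hR, map_zero T⟩)
    simpa using this
  -- every vector of the ball has `‖ℓ (T v)‖ ≤ c`
  have h3 : ∀ v : V, ‖v‖ ≤ R → ‖ℓ (T v)‖ ≤ c := by
    intro v hv
    by_cases h0 : ℓ (T v) = 0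
    · rw [h0, norm_zero]; exact hc.le
    · set z : 𝕜 := ℓ (T v) with hz
      have hzn : (‖z‖ : 𝕜) ≠ 0 := by
        simpa using h0
      set s : 𝕜 := (‖z‖ : 𝕜) / z with hs
      have hsn : ‖s‖ = 1 := by
        rw [hs, norm_div, RCLike.norm_ofReal, abs_norm, div_self (norm_ne_zero_iff.mpr h0)]
      have hmem : T (s • v) ∈ closure (T '' closedBall (0 : V) R) := by
        refine subset_closure ⟨s • v, ?_, rfl⟩
        simp [norm_smul, hsn, hv]
      have := h1 _ hmem
      rw [map_smul, map_smul, smul_eq_mul, ← hz, hs, div_mul_cancel₀ _ h0, RCLike.ofReal_re] at this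
      exact this.le
  have h4 : R * ‖ℓ.comp T‖ ≤ c := by
    rcases hR.eq_or_lt with hR0 | hRpos
    · rw [← hR0, zero_mul]; exact hc.le
    · have : ‖ℓ.comp T‖ ≤ c / R := by
        apply ContinuousLinearMap.opNorm_le_of_unit_norm (by positivity)
        intro v hv
        have h5 := h3 ((R : 𝕜) • v) (by
          rw [norm_smul, RCLike.norm_ofReal, abs_of_pos hRpos, hv, mul_one])
        rw [map_smul, map_smul, norm_smul, RCLike.norm_ofReal, abs_of_pos hRpos] at h5
        rw [le_div_iff₀ hRpos, mul_comm]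
        exact h5
      rw [le_div_iff₀ hRpos, mul_comm] at this
      exact this
  have h6 : RCLike.re (ℓ a) ≤ ‖ℓ a‖ := RCLike.re_le_norm _
  linarith [h ℓ]

/-- Successive approximation: if `u` is injective on a Banach space and each `u y` is in the
closure of the image of the ball of radius `‖u y‖`, then `u` is bounded below. -/
theorem norm_le_two_mul {E W : Type*} [NormedAddCommGroup E] [NormedSpace 𝕜 E] [CompleteSpace E]
    [NormedAddCommGroup W] [NormedSpace 𝕜 W] (u : E →L[𝕜] W) (hinj : ∀ y, u y = 0 → y = 0)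
    (h : ∀ y, u y ∈ closure (u '' closedBall (0 : E) ‖u y‖)) (y : E) : ‖y‖ ≤ 2 * ‖u y‖ := by
  have hstep : ∀ y : E, ∃ z : E, ‖z‖ ≤ ‖u y‖ ∧ ‖u (y - z)‖ ≤ ‖u y‖ / 2 := by
    intro y
    by_cases h0 : u y = 0
    · exact ⟨0, by simp, by simp [h0]⟩
    · have hpos : 0 < ‖u y‖ / 2 := half_pos (norm_pos_iff.mpr h0)
      obtain ⟨w, ⟨z, hz, rfl⟩, hw⟩ := Metric.mem_closure_iff.mp (h y) _ hpos
      refine ⟨z, by simpa using hz, ?_⟩
      rw [map_sub, ← dist_eq_norm]
      exact hw.le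
  choose z hz1 hz2 using hstep
  let r : ℕ → E := fun k => (fun w => w - z w)^[k] y
  have hr0 : r 0 = y := rfl
  have hrs : ∀ k, r (k + 1) = r k - z (r k) := fun k => Function.iterate_succ_apply' _ _ _
  have hur : ∀ k, ‖u (r k)‖ ≤ ‖u y‖ * (1 / 2) ^ k := by
    intro k
    induction k with
    | zero => simp [hr0]
    | succ k ih =>
      rw [hrs, pow_succ]
      have := hz2 (r k)
      linarith
  have hzr : ∀ k, ‖z (r k)‖ ≤ ‖u y‖ * (1 / 2) ^ k := fun k => (hz1 _).trans (hur k)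
  have hgeo : HasSum (fun k : ℕ => ‖u y‖ * (1 / 2 : ℝ) ^ k) (‖u y‖ * 2) :=
    hasSum_geometric_two.mul_left _
  have hsum : Summable fun k => z (r k) := Summable.of_norm_bounded hgeo.summable hzr
  have hnorm : ‖∑' k, z (r k)‖ ≤ ‖u y‖ * 2 := tsum_of_norm_bounded hgeo hzr
  have hpart : ∀ k, ∑ i ∈ Finset.range k, z (r i) = y - r k := by
    intro k
    induction k with
    | zero => simp [hr0]
    | succ k ih => rw [Finset.sum_range_succ, ih, hrs]; abel
  have hlim1 : Tendsto (fun k => u (∑ i ∈ Finset.range k, z (r i))) atTop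
      (𝓝 (u (∑' k, z (r k)))) :=
    (u.continuous.tendsto _).comp hsum.hasSum.tendsto_sum_nat
  have hlim0 : Tendsto (fun k => u (r k)) atTop (𝓝 0) := by
    rw [tendsto_zero_iff_norm_tendsto_zero]
    refine squeeze_zero (fun k => norm_nonneg _) hur ?_
    have := (tendsto_pow_atTop_nhds_zero_of_lt_one (r := (1 / 2 : ℝ)) (by norm_num)
      (by norm_num)).const_mul ‖u y‖
    simpa using this
  have hlim2 : Tendsto (fun k => u (∑ i ∈ Finset.range k, z (r i))) atTop (𝓝 (u y)) := by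
    simp only [hpart, map_sub]
    simpa using hlim0.const_sub (u y)
  have heq : u (∑' k, z (r k)) = u y := tendsto_nhds_unique hlim1 hlim2
  have : y - ∑' k, z (r k) = 0 := hinj _ (by rw [map_sub, heq, sub_self])
  rw [sub_eq_zero] at this
  calc ‖y‖ = ‖∑' k, z (r k)‖ := by rw [← this]
    _ ≤ 2 * ‖u y‖ := by linarith

/-- Helly-type approximation: a functional dominated by the seminorm induced by `V` is, on any
finite set of vectors, approximated by elements of a fixed ball of `V`. -/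
theorem exists_approx {E V : Type*} [NormedAddCommGroup E] [NormedSpace 𝕜 E]
    [NormedAddCommGroup V] [NormedSpace 𝕜 V] (u : E →L[𝕜] StrongDual 𝕜 V)
    (φ : StrongDual 𝕜 E) (C : ℝ) (hC : 0 ≤ C) (hφ : ∀ y, ‖φ y‖ ≤ C * ‖u y‖)
    (x : ℕ → E) (N : ℕ) (ε : ℝ) (hε : 0 < ε) :
    ∃ g : V, ‖g‖ ≤ C ∧ ∀ n < N, ‖u (x n) g - φ (x n)‖ < ε := by
  classical
  let T : V →L[𝕜] (Fin N → 𝕜) := ContinuousLinearMap.pi fun n : Fin N => u (x n)
  let a : Fin N → 𝕜 := fun n => φ (x n)
  have hmem : a ∈ closure (T '' closedBall (0 : V) C) := by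
    apply mem_closure_image_closedBall T a C hC
    intro ℓ
    have hℓ : ∀ b : Fin N → 𝕜, ℓ b = ∑ n : Fin N, b n * ℓ (Pi.single n 1) := by
      intro b
      conv_lhs => rw [pi_eq_sum_univ' b, map_sum]
      refine Finset.sum_congr rfl fun n _ => ?_
      rw [map_smul, smul_eq_mul]
    let w : E := ∑ n : Fin N, ℓ (Pi.single n 1) • x n
    have h1 : ℓ a = φ w := by
      rw [hℓ a]
      simp only [w, a, map_sum, map_smul, smul_eq_mul, mul_comm]
    have h2 : ℓ.comp T = u w := by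
      ext g
      rw [ContinuousLinearMap.comp_apply, hℓ]
      simp only [w, T, map_sum, map_smul, ContinuousLinearMap.pi_apply,
        sum_apply, smul_apply, smul_eq_mul, mul_comm]
    rw [h1, h2]
    exact hφ w
  obtain ⟨b, ⟨g, hg, rfl⟩, hb⟩ := Metric.mem_closure_iff.mp hmem ε hε
  refine ⟨g, by simpa using hg, fun n hn => ?_⟩
  have h3 := (dist_pi_lt_iff hε).mp hb ⟨n, hn⟩
  rw [dist_comm, dist_eq_norm] at h3
  simpa [T, a] using h3

/-- If every functional dominated by the seminorm `‖u y‖` is represented by a vector of `V` of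
the same norm, then `u` is bounded below. -/
theorem bounded_below {E V : Type*} [NormedAddCommGroup E] [NormedSpace 𝕜 E] [CompleteSpace E]
    [NormedAddCommGroup V] [NormedSpace 𝕜 V] (u : E →L[𝕜] StrongDual 𝕜 V)
    (hinj : ∀ y, u y = 0 → y = 0)
    (hdom : ∀ (φ : StrongDual 𝕜 E) (C : ℝ), 0 ≤ C → (∀ y, ‖φ y‖ ≤ C * ‖u y‖) →
      ∃ g : V, ‖g‖ = ‖φ‖ ∧ ∀ y, u y g = φ y) (y : E) : ‖y‖ ≤ 2 * ‖u y‖ := by
  refine norm_le_two_mul u hinj (fun w => ?_) y
  refine mem_closure_image_closedBall u (u w) ‖u w‖ (norm_nonneg (u w)) fun ℓ => ?_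
  obtain ⟨g, hg1, hg2⟩ := hdom (ℓ.comp u) ‖ℓ‖ (norm_nonneg ℓ) fun v => ℓ.le_opNorm (u v)
  have h1 : ℓ (u w) = u w g := (hg2 w).symm
  rw [h1, ← hg1]
  exact (u w).le_opNorm g

end Pool.Agent.Lib.MP_11f428_an
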